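import Pool.Agent.Run7.h514.MT.FrobFam

/-!
# Complete varieties over finite fields whose cohomology comes from hyperkähler varieties
-/

set_option autoImplicit false

namespace Run7.h514.SP

open Run7.h457.MT NumberField Pool.Agent.W401.Cheb TensorProduct

noncomputable section

/-- The `ℓ`-adic number `x` is an algebraic number all whose complex conjugates have the absolute value
`q ^ (w / 2)`. -/
def IsWeil {ℓ : ℕ} [Fact ℓ.Prime] (q w : ℕ) (x : AlgebraicClosure ℚ_[ℓ]) : Prop :=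
  IsIntegral ℚ x ∧ ∀ z : ℂ, Polynomial.aeval z (minpoly ℚ x) = 0 → ‖z‖ = (q : ℝ) ^ ((w : ℝ) / 2)

/-- The endomorphism `φ` of the vector space `U` over `ℚ_ℓ` is pure of weight `w` (with respect to
`q`): all its eigenvalues are algebraic numbers of absolute value `q ^ (w / 2)`. -/
def Pure {ℓ : ℕ} [Fact ℓ.Prime] (q w : ℕ) {U : Type} [AddCommGroup U] [Module ℚ_[ℓ] U]
    (φ : Module.End ℚ_[ℓ] U) : Prop :=
  ∀ x : AlgebraicClosure ℚ_[ℓ], Polynomial.aeval x (minpoly ℚ_[ℓ] φ) = 0 → IsWeil q w x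

/-- The vector spaces `U` over `ℚ_ℓ` with an endomorphism (the Frobenius over the field with `q`
elements) that are built from

* the cohomology groups of all products of copies of the varieties `V s`, `s ∈ S` (with the
  endomorphism `σ`), and
* spaces with a semisimple endomorphism (for example the `H¹` of abelian varieties and curves)

by Tate twists, tensor products, direct sums, subspaces and quotients. -/
inductive Built {K : Type} [Field K] [NumberField K] {ℓ : ℕ} [Fact ℓ.Prime] {S : Type}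
    (V : S → HK K ℓ) (σ : GK K) (q : ℕ) : ∀ (U : Type) [AddCommGroup U] [Module ℚ_[ℓ] U]
    (_ : Module.End ℚ_[ℓ] U), Prop
  | hk {T : Type} [Fintype T] [DecidableEq T] (f : T → S) (i : ℕ) :
      Built V σ q (Idx (fun t => V (f t)) i → ℚ_[ℓ]) (Matrix.toLin' (gal (fun t => V (f t)) i σ))
  | known {U : Type} [AddCommGroup U] [Module ℚ_[ℓ] U] [FiniteDimensional ℚ_[ℓ] U]
      {φ : Module.End ℚ_[ℓ] U} (h : Squarefree (minpoly ℚ_[ℓ] φ)) : Built V σ q U φ
  | twist {U : Type} [AddCommGroup U] [Module ℚ_[ℓ] U] {φ : Module.End ℚ_[ℓ] U} (m : ℤ)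
      (h : Built V σ q U φ) : Built V σ q U (((q : ℚ_[ℓ]) ^ m) • φ)
  | tensor {U U' : Type} [AddCommGroup U] [Module ℚ_[ℓ] U] [AddCommGroup U'] [Module ℚ_[ℓ] U']
      {φ : Module.End ℚ_[ℓ] U} {φ' : Module.End ℚ_[ℓ] U'} (h : Built V σ q U φ)
      (h' : Built V σ q U' φ') : Built V σ q (U ⊗[ℚ_[ℓ]] U') (TensorProduct.map φ φ')
  | sum {U U' : Type} [AddCommGroup U] [Module ℚ_[ℓ] U] [AddCommGroup U'] [Module ℚ_[ℓ] U']
      {φ : Module.End ℚ_[ℓ] U} {φ' : Module.End ℚ_[ℓ] U'} (h : Built V σ q U φ)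
      (h' : Built V σ q U' φ') : Built V σ q (U × U') (φ.prodMap φ')
  | sub {U U' : Type} [AddCommGroup U] [Module ℚ_[ℓ] U] [AddCommGroup U'] [Module ℚ_[ℓ] U']
      {φ : Module.End ℚ_[ℓ] U} {φ' : Module.End ℚ_[ℓ] U'} (g : U' →ₗ[ℚ_[ℓ]] U)
      (hg : Function.Injective g) (hc : ∀ x, g (φ' x) = φ (g x)) (h : Built V σ q U φ) :
      Built V σ q U' φ'
  | quot {U U' : Type} [AddCommGroup U] [Module ℚ_[ℓ] U] [AddCommGroup U'] [Module ℚ_[ℓ] U']
      {φ : Module.End ℚ_[ℓ] U} {φ' : Module.End ℚ_[ℓ] U'} (g : U →ₗ[ℚ_[ℓ]] U')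
      (hg : Function.Surjective g) (hc : ∀ x, g (φ x) = φ' (g x)) (h : Built V σ q U φ) :
      Built V σ q U' φ'

/-- The weight filtration of the cohomology group `M = H^i(X, ℚ_ℓ)` of a complete variety `X` over the
field with `q` elements (Deligne): `W j` is the part of the weights less than `j`, `φ` is the
Frobenius, and `gr j : W (j + 1) → G j` is the projection to the graded piece `G j` of weight `j`, with
the Frobenius `ψ j`. The graded pieces are supposed to be built from the cohomology of the reductions of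
the products of the varieties `V s`; this holds if there is a proper hypercovering of `X` by smooth
projective varieties whose cohomology is built in this way. -/
structure Weights {K : Type} [Field K] [NumberField K] {ℓ : ℕ} [Fact ℓ.Prime] {S : Type}
    (V : S → HK K ℓ) (σ : GK K) (q i : ℕ) (M : Type) [AddCommGroup M] [Module ℚ_[ℓ] M]
    (φ : Module.End ℚ_[ℓ] M) where
  W : ℕ → Submodule ℚ_[ℓ] M
  bot : W 0 = ⊥
  top : W (i + 1) = ⊤
  mono : ∀ j, W j ≤ W (j + 1)
  G : ℕ → Type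
  [inst : ∀ j, AddCommGroup (G j)]
  [inst' : ∀ j, Module ℚ_[ℓ] (G j)]
  ψ : ∀ j, Module.End ℚ_[ℓ] (G j)
  stable : ∀ j, ∀ x ∈ W j, φ x ∈ W j
  gr : ∀ j, W (j + 1) →ₗ[ℚ_[ℓ]] G j
  surj : ∀ j, Function.Surjective (gr j)
  ker : ∀ j (x : W (j + 1)), gr j x = 0 ↔ (x : M) ∈ W j
  comm : ∀ j (x : W (j + 1)), gr j ⟨φ x, stable (j + 1) x x.2⟩ = ψ j (gr j x)
  pure : ∀ j ≤ i, Pure q j (ψ j)
  built : ∀ j ≤ i, Built V σ q (G j) (ψ j)

end

end Run7.h514.SP
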