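import Pool.Agent.Run7.h514.SP.Defs

/-!
# Semisimplicity of Frobenius on the cohomology of complete varieties
-/

set_option autoImplicit false

namespace Run7.h514.SP

open Run7.h457.MT NumberField Pool.Agent.W401.Cheb TensorProduct Polynomial

/-- Killed by a squarefree polynomial. -/
def Sf {F U : Type} [Field F] [AddCommGroup U] [Module F U] (φ : Module.End F U) : Prop :=
  ∃ P : F[X], Squarefree P ∧ aeval φ P = 0

section
variable {F U U' : Type} [Field F] [AddCommGroup U] [Module F U] [AddCommGroup U'] [Module F U']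
  {φ : Module.End F U} {φ' : Module.End F U'}

lemma sf_of_minpoly (h : Squarefree (minpoly F φ)) : Sf φ := ⟨_, h, minpoly.aeval F φ⟩

lemma minpoly_of_sf (h : Sf φ) : Squarefree (minpoly F φ) := by
  obtain ⟨P, hP, h0⟩ := h
  exact hP.squarefree_of_dvd (minpoly.dvd F φ h0)

lemma aeval_comm (g : U →ₗ[F] U') (hc : ∀ x, g (φ x) = φ' (g x)) (P : F[X]) (x : U) :
    g (aeval φ P x) = aeval φ' P (g x) := by
  induction P using Polynomial.induction_on' with
  | add p q hp hq => simp only [map_add, LinearMap.add_apply, hp, hq]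
  | monomial n a =>
    have key : ∀ (n : ℕ) (x : U), g ((φ ^ n) x) = (φ' ^ n) (g x) := by
      intro n
      induction n with
      | zero => intro x; simp
      | succ n ih => intro x; rw [pow_succ, pow_succ, Module.End.mul_apply, Module.End.mul_apply,
          ih, hc]
    simp only [aeval_monomial, Module.End.mul_apply, Module.algebraMap_end_apply, map_smul, key]

lemma sf_sub (g : U →ₗ[F] U') (hg : Function.Injective g) (hc : ∀ x, g (φ x) = φ' (g x))
    (h : Sf φ') : Sf φ := by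
  obtain ⟨P, hP, h0⟩ := h
  refine ⟨P, hP, LinearMap.ext fun x => hg ?_⟩
  rw [aeval_comm g hc, h0]
  simp

lemma sf_quot (g : U →ₗ[F] U') (hg : Function.Surjective g) (hc : ∀ x, g (φ x) = φ' (g x))
    (h : Sf φ) : Sf φ' := by
  obtain ⟨P, hP, h0⟩ := h
  refine ⟨P, hP, LinearMap.ext fun y => ?_⟩
  obtain ⟨x, rfl⟩ := hg y
  rw [← aeval_comm g hc, h0]
  simp

lemma sf_sum (h : Sf φ) (h' : Sf φ') : Sf (φ.prodMap φ') := by
  classical
  obtain ⟨P, hP, h0⟩ := h
  obtain ⟨Q, hQ, h0'⟩ := h'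
  have hP0 := hP.ne_zero
  have hQ0 := hQ.ne_zero
  refine ⟨UniqueFactorizationMonoid.radical (P * Q), UniqueFactorizationMonoid.squarefree_radical,
    ?_⟩
  have hd : P ∣ UniqueFactorizationMonoid.radical (P * Q) :=
    (hP.isRadical.dvd_radical hP0).trans
      (UniqueFactorizationMonoid.radical_dvd_radical (dvd_mul_right P Q) (mul_ne_zero hP0 hQ0))
  have hd' : Q ∣ UniqueFactorizationMonoid.radical (P * Q) :=
    (hQ.isRadical.dvd_radical hQ0).trans
      (UniqueFactorizationMonoid.radical_dvd_radical (dvd_mul_left Q P) (mul_ne_zero hP0 hQ0))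
  have k1 : aeval φ (UniqueFactorizationMonoid.radical (P * Q)) = 0 := by
    obtain ⟨R, hR⟩ := hd
    rw [hR, map_mul, h0, zero_mul]
  have k2 : aeval φ' (UniqueFactorizationMonoid.radical (P * Q)) = 0 := by
    obtain ⟨R, hR⟩ := hd'
    rw [hR, map_mul, h0', zero_mul]
  refine LinearMap.ext fun x => Prod.ext ?_ ?_
  · have := aeval_comm (φ := φ.prodMap φ') (φ' := φ) (LinearMap.fst F U U') (fun _ => rfl)
      (UniqueFactorizationMonoid.radical (P * Q)) x
    rw [k1] at this
    simpa using this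
  · have := aeval_comm (φ := φ.prodMap φ') (φ' := φ') (LinearMap.snd F U U') (fun _ => rfl)
      (UniqueFactorizationMonoid.radical (P * Q)) x
    rw [k2] at this
    simpa using this

lemma sf_tensor [PerfectField F] [FiniteDimensional F U] [FiniteDimensional F U'] (h : Sf φ)
    (h' : Sf φ') : Sf (TensorProduct.map φ φ') := by
  have e : TensorProduct.map φ φ' = (φ.rTensor U') * (φ'.lTensor U) := by
    rw [Module.End.mul_eq_comp, LinearMap.rTensor_comp_lTensor]
  have hc : Commute (φ.rTensor U') (φ'.lTensor U) := by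
    show _ * _ = _ * _
    rw [Module.End.mul_eq_comp, Module.End.mul_eq_comp, LinearMap.rTensor_comp_lTensor,
      LinearMap.lTensor_comp_rTensor]
  have s1 : Module.End.IsSemisimple (φ.rTensor U') := by
    obtain ⟨P, hP, h0⟩ := h
    refine Module.End.isSemisimple_of_squarefree_aeval_eq_zero hP ?_
    have : ∀ Q : F[X], aeval (φ.rTensor U') Q = (aeval φ Q).rTensor U' := by
      intro Q
      exact (Polynomial.aeval_algHom_apply (Module.End.rTensorAlgHom F U U') φ Q)
    rw [this, h0, LinearMap.rTensor_zero]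
  have s2 : Module.End.IsSemisimple (φ'.lTensor U) := by
    obtain ⟨P, hP, h0⟩ := h'
    refine Module.End.isSemisimple_of_squarefree_aeval_eq_zero hP ?_
    have : ∀ Q : F[X], aeval (φ'.lTensor U) Q = (aeval φ' Q).lTensor U := by
      intro Q
      exact (Polynomial.aeval_algHom_apply (Module.End.lTensorAlgHom F U' U) φ' Q)
    rw [this, h0, LinearMap.lTensor_zero]
  rw [e]
  exact sf_of_minpoly (s1.mul_of_commute hc s2).minpoly_squarefree

lemma sf_smul [PerfectField F] [FiniteDimensional F U] (c : F) (h : Sf φ) : Sf (c • φ) := by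
  obtain ⟨P, hP, h0⟩ := h
  have s1 : φ.IsSemisimple := Module.End.isSemisimple_of_squarefree_aeval_eq_zero hP h0
  have := s1.aeval (C c * X)
  rw [map_mul, aeval_C, aeval_X, ← Algebra.smul_def] at this
  exact sf_of_minpoly this.minpoly_squarefree

end

section
variable {K : Type} [Field K] [NumberField K] {ℓ : ℕ} [Fact ℓ.Prime] {S : Type}
  {V : S → HK K ℓ} {σ : GK K} {q : ℕ}

theorem built_sf (hV : ∀ s, Squarefree (minpoly ℚ_[ℓ] ((V s).C.G 2 σ))) {U : Type}
    [AddCommGroup U] [Module ℚ_[ℓ] U] {φ : Module.End ℚ_[ℓ] U} (h : Built V σ q U φ) :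
    Module.Finite ℚ_[ℓ] U ∧ Sf φ := by
  induction h with
  | hk f i =>
    refine ⟨inferInstance, sf_of_minpoly ?_⟩
    rw [Matrix.minpoly_toLin']
    exact Run7.h514.MT.ss_gal (fun t => V (f t)) (fun t => hV (f t)) i
  | known h => exact ⟨inferInstance, sf_of_minpoly h⟩
  | twist m h ih =>
    obtain ⟨i1, i2⟩ := ih
    exact ⟨i1, sf_smul _ i2⟩
  | tensor h h' ih ih' =>
    obtain ⟨i1, i2⟩ := ih
    obtain ⟨j1, j2⟩ := ih'
    exact ⟨inferInstance, sf_tensor i2 j2⟩
  | sum h h' ih ih' =>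
    obtain ⟨i1, i2⟩ := ih
    obtain ⟨j1, j2⟩ := ih'
    exact ⟨inferInstance, sf_sum i2 j2⟩
  | sub g hg hc h ih =>
    obtain ⟨i1, i2⟩ := ih
    exact ⟨Module.Finite.of_injective g hg, sf_sub g hg hc i2⟩
  | quot g hg hc h ih =>
    obtain ⟨i1, i2⟩ := ih
    exact ⟨Module.Finite.of_surjective g hg, sf_quot g hg hc i2⟩

lemma weil_unique {q w w' : ℕ} (hq : 1 < q) {x : AlgebraicClosure ℚ_[ℓ]} (h : IsWeil q w x)
    (h' : IsWeil q w' x) : w = w' := by
  obtain ⟨z, hz⟩ := IsAlgClosed.exists_aeval_eq_zero ℂ (minpoly ℚ x)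
    (minpoly.degree_pos h.1).ne'
  have h1 := h.2 z hz
  have h2 := h'.2 z hz
  rw [h1] at h2
  have hq' : (1 : ℝ) < q := by exact_mod_cast hq
  have h3 := Real.strictMono_rpow_of_base_gt_one hq' |>.injective h2
  have h4 : (w : ℝ) = w' := by linarith
  exact_mod_cast h4

theorem main (hV : ∀ s, Squarefree (minpoly ℚ_[ℓ] ((V s).C.G 2 σ))) (hq : 1 < q) {i : ℕ}
    {M : Type} [AddCommGroup M] [Module ℚ_[ℓ] M] {φ : Module.End ℚ_[ℓ] M}
    (w : Weights V σ q i M φ) : Squarefree (minpoly ℚ_[ℓ] φ) := by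
  obtain ⟨W, bot, top, mono, G, ψ, stable, gr, surj, ker, comm, pure, built⟩ := w
  have hb : ∀ j ≤ i, Squarefree (minpoly ℚ_[ℓ] (ψ j)) := fun j hj =>
    minpoly_of_sf (built_sf hV (built j hj)).2
  -- the polynomials are coprime
  have hcop : ∀ j ≤ i, ∀ k ≤ i, j ≠ k → IsCoprime (minpoly ℚ_[ℓ] (ψ j)) (minpoly ℚ_[ℓ] (ψ k)) := by
    intro j hj k hk hjk
    refine isCoprime_of_irreducible_dvd (fun h => (hb j hj).ne_zero h.1) fun p hp hpj hpk => ?_
    obtain ⟨x, hx⟩ := IsAlgClosed.exists_aeval_eq_zero (AlgebraicClosure ℚ_[ℓ]) p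
      hp.degree_pos.ne'
    have r1 : aeval x (minpoly ℚ_[ℓ] (ψ j)) = 0 := by
      obtain ⟨r, hr⟩ := hpj
      rw [hr, map_mul, hx, zero_mul]
    have r2 : aeval x (minpoly ℚ_[ℓ] (ψ k)) = 0 := by
      obtain ⟨r, hr⟩ := hpk
      rw [hr, map_mul, hx, zero_mul]
    exact hjk (weil_unique hq (pure j hj x r1) (pure k hk x r2))
  have hsq : Squarefree (∏ j ∈ Finset.range (i + 1), minpoly ℚ_[ℓ] (ψ j)) := by
    refine Finset.squarefree_prod_of_pairwise_isCoprime (fun j hj k hk hjk => ?_) fun j hj => ?_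
    · have hj' := Finset.mem_range.1 (Finset.mem_coe.1 hj)
      have hk' := Finset.mem_range.1 (Finset.mem_coe.1 hk)
      exact (hcop j (by omega) k (by omega) hjk).isRelPrime
    · have hj' := Finset.mem_range.1 hj
      exact hb j (by omega)
  refine minpoly_of_sf ⟨_, hsq, ?_⟩
  -- the product kills everything
  have hst : ∀ j (P : ℚ_[ℓ][X]), ∀ x ∈ W j, aeval φ P x ∈ W j := by
    intro j P x hx
    have e := aeval_comm (φ := φ.restrict (stable j)) (φ' := φ) (W j).subtype (fun _ => rfl) P ⟨x, hx⟩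
    rw [Submodule.subtype_apply] at e
    show aeval φ P ((⟨x, hx⟩ : W j) : M) ∈ W j
    rw [← Submodule.subtype_apply, ← e]
    exact Submodule.coe_mem _
  have hdown : ∀ j, ∀ x ∈ W (j + 1), aeval φ (minpoly ℚ_[ℓ] (ψ j)) x ∈ W j := by
    intro j x hx
    have e := aeval_comm (φ := φ.restrict (stable (j + 1))) (φ' := ψ j) (gr j)
      (fun y => comm j y) (minpoly ℚ_[ℓ] (ψ j)) ⟨x, hx⟩
    rw [minpoly.aeval, LinearMap.zero_apply] at e
    have e2 := (ker j _).1 e
    have e3 := aeval_comm (φ := φ.restrict (stable (j + 1))) (φ' := φ) (W (j + 1)).subtype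
      (fun _ => rfl) (minpoly ℚ_[ℓ] (ψ j)) ⟨x, hx⟩
    rw [Submodule.subtype_apply, Submodule.subtype_apply] at e3
    rw [← e3]
    exact e2
  have key : ∀ n, ∀ x ∈ W n, aeval φ (∏ j ∈ Finset.range n, minpoly ℚ_[ℓ] (ψ j)) x = 0 := by
    intro n
    induction n with
    | zero =>
      intro x hx
      rw [bot, Submodule.mem_bot] at hx
      rw [hx, map_zero]
    | succ n ih =>
      intro x hx
      rw [Finset.prod_range_succ, map_mul, Module.End.mul_apply]
      exact ih _ (hdown n x hx)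
  refine LinearMap.ext fun x => ?_
  rw [LinearMap.zero_apply]
  exact key (i + 1) x (by rw [top]; exact Submodule.mem_top)

end

end Run7.h514.SP
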